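import Pool.Agent.H718Z.Amen

set_option autoImplicit false

namespace Pool.Agent.Results.MP_7e9760_al.AAmenTwoCost

open Pool.Agent.H718Z.CostDefs

/-- Every countable group all of whose two-generated subgroups are amenable has cost at most 1. -/
theorem result : ∀ (G : Type) [Group G] [Countable G],
    (∀ a b : G, IsAmenable (Subgroup.closure ({a, b} : Set G))) → groupCost G ≤ 1 :=
  fun _ _ _ h => Pool.Agent.H718Z.groupCost_le_one h

end Pool.Agent.Results.MP_7e9760_al.AAmenTwoCost
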